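import Pool.Agent.H3.GradedIface

/-!
# MP_c3b2eb_al, Q1: right approximations by gradable modules

Right `R`-modules are modules over `Rᵐᵒᵖ`.
-/

namespace Pool.Agent.Results.MP_c3b2eb_al.Approx

universe u v

variable {R : Type u} [Ring R]

/-- The right `R`-module `N` is gradable with respect to the grading `𝒜` of `R`: there are
subgroups `ℳ i` (`i ∈ ℤ`) with `N = ⨁ ℳ i` and `(ℳ i) (𝒜 j) ⊆ ℳ (i + j)`. -/
def IsGradable (𝒜 : ℤ → AddSubgroup R) (N : Type v) [AddCommGroup N] [Module Rᵐᵒᵖ N] : Prop :=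
  ∃ ℳ : ℤ → AddSubgroup N, DirectSum.IsInternal ℳ ∧
    ∀ i j : ℤ, ∀ m ∈ ℳ i, ∀ r ∈ 𝒜 j, MulOpposite.op r • m ∈ ℳ (i + j)

/-- `N` has a right approximation by finitely generated gradable modules: a map `φ : C → N` with
`C` finitely generated and gradable, through which every map `C' → N` from a finitely generated
gradable module `C'` factors. -/
def HasApprox (𝒜 : ℤ → AddSubgroup R) (N : Type v) [AddCommGroup N] [Module Rᵐᵒᵖ N] : Prop :=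
  ∃ (C : Type v) (_ : AddCommGroup C) (_ : Module Rᵐᵒᵖ C) (φ : C →ₗ[Rᵐᵒᵖ] N),
    Module.Finite Rᵐᵒᵖ C ∧ IsGradable 𝒜 C ∧
    ∀ (C' : Type v) [AddCommGroup C'] [Module Rᵐᵒᵖ C'], Module.Finite Rᵐᵒᵖ C' →
      IsGradable 𝒜 C' → ∀ g : C' →ₗ[Rᵐᵒᵖ] N, ∃ h : C' →ₗ[Rᵐᵒᵖ] C, g = φ ∘ₗ h

open Pool.Agent.H3.Graded in
/-- **MP_c3b2eb_al, Q1 is true.** -/
theorem result (𝒜 : ℤ → AddSubgroup R) [GradedRing 𝒜] [IsArtinian Rᵐᵒᵖ R]
    (N : Type v) [AddCommGroup N] [Module Rᵐᵒᵖ N] [Module.Finite Rᵐᵒᵖ N]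
    (h : HasApprox 𝒜 N) : IsGradable 𝒜 N := by
  obtain ⟨C, _, _, φ, hC, ⟨ℳ, hℳ, hℳ'⟩, hφ⟩ := h
  have : IsArtinian Rᵐᵒᵖ Rᵐᵒᵖ := artinian_op R
  have : IsArtinianRing Rᵐᵒᵖ := this
  have : IsNoetherianRing Rᵐᵒᵖ := inferInstance
  have : IsNoetherian Rᵐᵒᵖ N := isNoetherian_of_isNoetherianRing_of_finite _ N
  have : IsNoetherian Rᵐᵒᵖ C := isNoetherian_of_isNoetherianRing_of_finite _ C
  have : IsArtinian Rᵐᵒᵖ N := inferInstance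
  have : IsArtinian Rᵐᵒᵖ C := inferInstance
  obtain ⟨f, hf⟩ := FRG.exists_of_artinian (opRG 𝒜)
  obtain ⟨G⟩ := mg_of_grading 𝒜 ℳ hℳ hℳ'
  rw [← hf] at G
  obtain ⟨H⟩ := gradable_of_approx f G φ (by
    intro C' _ _ hC' hG r
    rw [hf] at hG
    obtain ⟨G'⟩ := hG
    obtain ⟨h, hh⟩ := hφ C' hC' (grading_of_mg 𝒜 G') r
    exact ⟨h, hh.symm⟩)
  rw [hf] at H
  exact grading_of_mg 𝒜 H

end Pool.Agent.Results.MP_c3b2eb_al.Approx
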